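import Pool.Agent.H16.InnFree

/-!
# Divisibility in the automorphism group of a free group
-/

set_option autoImplicit false

namespace Pool.Agent.H49.AF

open Pool.Agent.H16.Inn

universe u

variable {β : Type u}

/-- The inner automorphism given by the power `a ^ c` of a generator. -/
def EE (a : β) (c : ℤ) : MulAut (FreeGroup β) := MulAut.conj (FreeGroup.of a ^ c)

theorem EE_add (a : β) (c d : ℤ) : EE a (c + d) = EE a c * EE a d := by
  unfold EE
  rw [zpow_add, map_mul]

theorem EE_neg (a : β) (c : ℤ) : EE a (-c) = (EE a c)⁻¹ := by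
  unfold EE
  rw [zpow_neg, map_inv]

theorem EE_zero (a : β) : EE a 0 = 1 := by
  unfold EE
  rw [zpow_zero, map_one]

/-- Exponent sums. -/
noncomputable def es [DecidableEq β] (a : β) : FreeGroup β →* Multiplicative ℤ :=
  FreeGroup.lift fun i => if i = a then Multiplicative.ofAdd 1 else 1

theorem es_of [DecidableEq β] (a i : β) :
    es a (FreeGroup.of i) = if i = a then Multiplicative.ofAdd 1 else 1 :=
  FreeGroup.lift_apply_of

theorem of_zpow_injective (a : β) : Function.Injective fun c : ℤ => FreeGroup.of a ^ c := by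
  classical
  intro c d h
  have h1 := congrArg (es a) h
  simp only [map_zpow, es_of, if_true, ← ofAdd_zsmul, smul_eq_mul, mul_one] at h1
  exact Multiplicative.ofAdd.injective h1

theorem EE_injective [DecidableEq β] {a b : β} (hab : a ≠ b) : Function.Injective (EE a) := by
  intro c d h
  exact of_zpow_injective a (conj_injective hab h)

theorem mem_HI_singleton (a : β) (w : FreeGroup β) :
    w ∈ HI ({a} : Set β) ↔ ∃ c : ℤ, FreeGroup.of a ^ c = w := by
  rw [HI, Set.image_singleton, Subgroup.mem_closure_singleton]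

/-! ### The automorphism `b ↦ b a ^ c`, `l ↦ l b` -/

section phi

variable [DecidableEq β] (a b l : β)

/-- The endomorphism. -/
noncomputable def phH (c : ℤ) : FreeGroup β →* FreeGroup β :=
  FreeGroup.lift fun i => if i = b then FreeGroup.of b * FreeGroup.of a ^ c else
    if i = l then FreeGroup.of l * FreeGroup.of b else FreeGroup.of i

/-- The inverse. -/
noncomputable def psH (c : ℤ) : FreeGroup β →* FreeGroup β :=
  FreeGroup.lift fun i => if i = b then FreeGroup.of b * FreeGroup.of a ^ (-c) else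
    if i = l then FreeGroup.of l * FreeGroup.of a ^ c * (FreeGroup.of b)⁻¹ else FreeGroup.of i

variable {a b l}

theorem phH_b (c : ℤ) : phH a b l c (FreeGroup.of b) = FreeGroup.of b * FreeGroup.of a ^ c := by
  rw [phH, FreeGroup.lift_apply_of, if_pos rfl]

theorem phH_l (hbl : b ≠ l) (c : ℤ) :
    phH a b l c (FreeGroup.of l) = FreeGroup.of l * FreeGroup.of b := by
  rw [phH, FreeGroup.lift_apply_of, if_neg hbl.symm, if_pos rfl]

theorem phH_o (c : ℤ) {i : β} (h1 : i ≠ b) (h2 : i ≠ l) :
    phH a b l c (FreeGroup.of i) = FreeGroup.of i := by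
  rw [phH, FreeGroup.lift_apply_of, if_neg h1, if_neg h2]

theorem psH_b (c : ℤ) : psH a b l c (FreeGroup.of b) = FreeGroup.of b * FreeGroup.of a ^ (-c) := by
  rw [psH, FreeGroup.lift_apply_of, if_pos rfl]

theorem psH_l (hbl : b ≠ l) (c : ℤ) :
    psH a b l c (FreeGroup.of l) = FreeGroup.of l * FreeGroup.of a ^ c * (FreeGroup.of b)⁻¹ := by
  rw [psH, FreeGroup.lift_apply_of, if_neg hbl.symm, if_pos rfl]

theorem psH_o (c : ℤ) {i : β} (h1 : i ≠ b) (h2 : i ≠ l) :
    psH a b l c (FreeGroup.of i) = FreeGroup.of i := by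
  rw [psH, FreeGroup.lift_apply_of, if_neg h1, if_neg h2]

/-- The automorphism `b ↦ b a ^ c`, `l ↦ l b`. -/
noncomputable def ph (hab : a ≠ b) (hal : a ≠ l) (hbl : b ≠ l) (c : ℤ) : MulAut (FreeGroup β) :=
  MonoidHom.toMulEquiv (phH a b l c) (psH a b l c)
    (by
      ext i
      by_cases h1 : i = b
      · subst h1
        simp [phH_b, psH_b, psH_o _ hab hal]
      by_cases h2 : i = l
      · subst h2
        simp [phH_l hbl, psH_l hbl, psH_b, mul_assoc]
      · simp [phH_o _ h1 h2, psH_o _ h1 h2])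
    (by
      ext i
      by_cases h1 : i = b
      · subst h1
        simp [phH_b, psH_b, phH_o _ hab hal]
      by_cases h2 : i = l
      · subst h2
        simp [phH_l hbl, psH_l hbl, phH_b, phH_o _ hab hal, mul_assoc]
      · simp [phH_o _ h1 h2, psH_o _ h1 h2])

theorem ph_apply (hab : a ≠ b) (hal : a ≠ l) (hbl : b ≠ l) (c : ℤ) (w : FreeGroup β) :
    ph hab hal hbl c w = phH a b l c w := rfl

end phi

/-! ### The relation -/

variable (a b l : β)

/-- The predicate which defines divisibility. -/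
def DivG (A B : MulAut (FreeGroup β)) : Prop :=
  (A ∈ Set.range (EE a) ∧ B ∈ Set.range (EE a)) ∧
    ∃ u : Fin 2 → MulAut (FreeGroup β),
      (∀ i : β, i ≠ b ∧ i ≠ l → u 0 * MulAut.conj (FreeGroup.of i) =
        MulAut.conj (FreeGroup.of i) * u 0) ∧
      u 0 * MulAut.conj (FreeGroup.of b) = MulAut.conj (FreeGroup.of b) * A * u 0 ∧
      u 0 * MulAut.conj (FreeGroup.of l) =
        MulAut.conj (FreeGroup.of l) * MulAut.conj (FreeGroup.of b) * u 0 ∧
      u 1 * MulAut.conj (FreeGroup.of b) = MulAut.conj (FreeGroup.of b) * B * u 1 ∧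
      u 1 * u 0 = u 0 * u 1

variable {a b l}

theorem apply_eq [DecidableEq β] {i j : β} (hij : i ≠ j) {α : MulAut (FreeGroup β)}
    {w v : FreeGroup β} (h : α * MulAut.conj w = MulAut.conj v * α) : α w = v := by
  rw [mul_conj] at h
  exact conj_injective hij (mul_right_cancel h)

theorem zpow_fix {α : MulAut (FreeGroup β)} {w : FreeGroup β} (h : α w = w) (q : ℤ) :
    (α ^ q) w = w := by
  have h1 : α ∈ MulAction.stabilizer (MulAut (FreeGroup β)) w := h
  exact (MulAction.stabilizer (MulAut (FreeGroup β)) w).zpow_mem h1 q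

theorem zpow_b {α : MulAut (FreeGroup β)} {w g : FreeGroup β} (h : α g = g) {c : ℤ}
    (hw : α w = w * g ^ c) (q : ℤ) : (α ^ q) w = w * g ^ (c * q) := by
  induction q using Int.induction_on with
  | zero => simp
  | succ q ih =>
    rw [zpow_add_one, MulAut.mul_apply, hw, map_mul, ih, map_zpow, zpow_fix h, mul_assoc,
      ← zpow_add]
    congr 2
    ring
  | pred q ih =>
    have h1 : α⁻¹ w = w * g ^ (-c) := by
      change α.symm w = _
      rw [MulEquiv.symm_apply_eq, map_mul, hw, map_zpow, h, mul_assoc, ← zpow_add, add_neg_cancel, zpow_zero, mul_one]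
    rw [zpow_sub_one, MulAut.mul_apply, h1, map_mul, ih, map_zpow, zpow_fix h, mul_assoc,
      ← zpow_add]
    congr 2
    ring

/-- The relation `DivG` is divisibility. -/
theorem divG_iff [DecidableEq β] (hab : a ≠ b) (hal : a ≠ l) (hbl : b ≠ l) (c d : ℤ) :
    DivG a b l (EE a c) (EE a d) ↔ c ∣ d := by
  constructor
  · rintro ⟨-, u, h1, h2, h3, h4, h5⟩
    have e1 : ∀ i : β, i ≠ b → i ≠ l → u 0 (FreeGroup.of i) = FreeGroup.of i := fun i hi hi' =>
      apply_eq hab (h1 i ⟨hi, hi'⟩)
    have e2 : u 0 (FreeGroup.of b) = FreeGroup.of b * FreeGroup.of a ^ c := by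
      refine apply_eq hab ?_
      rw [h2, map_mul]
      rfl
    have e3 : u 0 (FreeGroup.of l) = FreeGroup.of l * FreeGroup.of b := by
      refine apply_eq hab ?_
      rw [h3, map_mul]
    have e4 : u 1 (FreeGroup.of b) = FreeGroup.of b * FreeGroup.of a ^ d := by
      refine apply_eq hab ?_
      rw [h4, map_mul]
      rfl
    have e5 : u 0 (u 1 (FreeGroup.of l)) =
        u 1 (FreeGroup.of l) * (FreeGroup.of b * FreeGroup.of a ^ d) := by
      have h6 := DFunLike.congr_fun h5 (FreeGroup.of l)
      rw [MulAut.mul_apply, MulAut.mul_apply, e3, map_mul, e4] at h6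
      exact h6.symm
    have e6 : (es a).comp (u 0).toMonoidHom = es a * (zpowGroupHom c).comp (es b) := by
      ext i
      by_cases hi : i = b
      · subst hi
        simp [e2, es_of, hab.symm]
      by_cases hi' : i = l
      · subst hi'
        simp [e3, es_of, hi, hal.symm, hab.symm]
      · simp [e1 i hi hi', es_of, hi]
    have e7 : es a (u 0 (u 1 (FreeGroup.of l))) =
        es a (u 1 (FreeGroup.of l)) * (es b (u 1 (FreeGroup.of l))) ^ c :=
      DFunLike.congr_fun e6 _
    rw [e5, map_mul, map_mul, map_zpow, es_of, es_of, if_neg hab.symm, if_pos rfl, one_mul,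
      mul_right_inj] at e7
    refine ⟨Multiplicative.toAdd (es b (u 1 (FreeGroup.of l))), ?_⟩
    have e8 := congrArg Multiplicative.toAdd e7
    simpa using e8
  · rintro ⟨q, rfl⟩
    refine ⟨⟨⟨c, rfl⟩, ⟨c * q, rfl⟩⟩, ![ph hab hal hbl c, (ph hab hal hbl c) ^ q], ?_, ?_, ?_, ?_, ?_⟩
    · rintro i ⟨hi, hi'⟩
      change ph hab hal hbl c * _ = _ * ph hab hal hbl c
      rw [mul_conj, ph_apply, phH_o _ hi hi']
    · change ph hab hal hbl c * _ = _ * ph hab hal hbl c
      rw [mul_conj, ph_apply, phH_b, map_mul]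
      rfl
    · change ph hab hal hbl c * _ = _ * ph hab hal hbl c
      rw [mul_conj, ph_apply, phH_l hbl, map_mul]
    · change ph hab hal hbl c ^ q * _ = _ * ph hab hal hbl c ^ q
      rw [mul_conj, zpow_b (g := FreeGroup.of a) (c := c), map_mul]
      · rfl
      · rw [ph_apply, phH_o _ hab hal]
      · rw [ph_apply, phH_b]
    · change ph hab hal hbl c ^ q * ph hab hal hbl c = ph hab hal hbl c * ph hab hal hbl c ^ q
      rw [← zpow_add_one, ← zpow_one_add, add_comm]

end Pool.Agent.H49.AF
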