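import Mathlib

/-!
# Interpretations of structures

`M` is a structure for `L`, `N` is a structure for `L'`, `E : M → N` is a map whose range is
definable and such that the graphs of the functions and the relations of `M` are mapped to
definable sets.  Then the image of each definable set is definable (parameters allowed).
-/

set_option autoImplicit false

open FirstOrder Set

namespace Pool.Agent.H49.AF

universe u v w z

variable {L : FirstOrder.Language.{u, v}} {L' : FirstOrder.Language.{w, z}} {M N : Type*}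
  [L.Structure M] [L'.Structure N]

/-- Definable predicates (all parameters are allowed). -/
def Def (L' : FirstOrder.Language.{w, z}) {N : Type*} [L'.Structure N] {α : Type*}
    (P : (α → N) → Prop) : Prop := (Set.univ : Set N).Definable L' {v | P v}

section calculus

variable {α β : Type*}

theorem Def.and {P Q : (α → N) → Prop} (hP : Def L' P) (hQ : Def L' Q) :
    Def L' fun v => P v ∧ Q v := Set.Definable.inter hP hQ

theorem Def.or {P Q : (α → N) → Prop} (hP : Def L' P) (hQ : Def L' Q) :
    Def L' fun v => P v ∨ Q v := Set.Definable.union hP hQ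

theorem Def.not {P : (α → N) → Prop} (hP : Def L' P) : Def L' fun v => ¬ P v :=
  Set.Definable.compl hP

theorem Def.imp {P Q : (α → N) → Prop} (hP : Def L' P) (hQ : Def L' Q) :
    Def L' fun v => P v → Q v := by
  have h := hP.not.or hQ
  simpa only [← imp_iff_not_or] using h

theorem Def.false : Def L' fun _ : α → N => False := Set.definable_empty

theorem Def.all_finite {ι : Type*} [Finite ι] {P : ι → (α → N) → Prop}
    (hP : ∀ i, Def L' (P i)) : Def L' fun v => ∀ i, P i v := by
  have h := Set.definable_iInter_of_finite (A := (Set.univ : Set N)) (L := L') hP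
  unfold Def
  convert h using 1
  ext v
  simp

theorem Def.comap {P : (α → N) → Prop} (hP : Def L' P) (f : α → β) :
    Def L' fun v : β → N => P (v ∘ f) := Set.Definable.preimage_comp f hP

theorem Def.exs {k : ℕ} {P : (α → N) → (Fin k → N) → Prop}
    (hP : Def L' fun v : α ⊕ Fin k → N => P (v ∘ Sum.inl) (v ∘ Sum.inr)) :
    Def L' fun v => ∃ u, P v u := by
  have h := Set.Definable.exists_of_finite hP
  exact h

theorem Def.ex {P : (α → N) → N → Prop}
    (hP : Def L' fun v : α ⊕ Fin 1 → N => P (v ∘ Sum.inl) (v (Sum.inr 0))) :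
    Def L' fun v => ∃ x, P v x := by
  have h := Set.Definable.exists_of_finite hP
  unfold Def
  convert h using 1
  ext v
  constructor
  · rintro ⟨x, hx⟩
    exact ⟨fun _ => x, hx⟩
  · rintro ⟨u, hu⟩
    exact ⟨u 0, hu⟩

theorem Def.all {P : (α → N) → N → Prop}
    (hP : Def L' fun v : α ⊕ Fin 1 → N => P (v ∘ Sum.inl) (v (Sum.inr 0))) :
    Def L' fun v => ∀ x, P v x := by
  have h := Set.Definable.forall_of_finite hP
  unfold Def
  convert h using 1
  ext v
  constructor
  · intro hx u
    exact hx (u 0)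
  · intro hu x
    exact hu fun _ => x

theorem Def.eq_var (i j : α) : Def L' fun v : α → N => v i = v j :=
  ⟨Language.Term.equal (Language.Term.var i) (Language.Term.var j), by ext v; simp⟩

/-- Substituting elements for some of the variables. -/
theorem Def.fix {P : (α ⊕ β → N) → Prop} (hP : Def L' P) (c : α → N) :
    Def L' fun v : β → N => P (Sum.elim c v) := by
  obtain ⟨φ, hφ⟩ := hP
  refine ⟨φ.subst (Sum.elim (fun a => (L'.con (⟨c a, trivial⟩ : (Set.univ : Set N))).term)
    (fun b => Language.Term.var b)), ?_⟩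
  ext v
  have h : ∀ w, P w ↔ φ.Realize w := fun w => by
    have := congrArg (fun s : Set (α ⊕ β → N) => w ∈ s) hφ
    exact iff_of_eq this
  simp only [Set.mem_ofPred_eq]
  rw [h]
  unfold Language.Formula.Realize
  rw [Language.BoundedFormula.realize_subst]
  apply iff_of_eq
  congr 1
  funext i
  rcases i with i | i <;> simp

end calculus

section interp

variable (E : M → N)

/-- The hypotheses of the interpretation lemma. -/
structure Interp (L : FirstOrder.Language.{u, v}) (L' : FirstOrder.Language.{w, z})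
    {M N : Type*} [L.Structure M] [L'.Structure N] (E : M → N) : Prop where
  inj : Function.Injective E
  ran : Def L' fun v : Fin 1 → N => v 0 ∈ Set.range E
  fn : ∀ (k : ℕ) (f : L.Functions k), Def L' fun v : Fin k ⊕ Fin 1 → N =>
    ∃ a : Fin k → M, v ∘ Sum.inl = E ∘ a ∧ v (Sum.inr 0) = E (Language.Structure.funMap f a)
  rel : ∀ (k : ℕ) (R : L.Relations k), Def L' fun v : Fin k → N =>
    ∃ a : Fin k → M, v = E ∘ a ∧ Language.Structure.RelMap R a

variable {E}

theorem Interp.term (h : Interp L L' E) {γ : Type*} (t : L.Term γ) :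
    ∃ P : (γ ⊕ Fin 1 → N) → Prop, Def L' P ∧ ∀ (a : γ → M) (y : Fin 1 → N),
      P (Sum.elim (E ∘ a) y) ↔ y 0 = E (t.realize a) := by
  induction t with
  | var i => exact ⟨fun v => v (Sum.inr 0) = v (Sum.inl i), Def.eq_var _ _, fun a y => Iff.rfl⟩
  | @func l f ts ih =>
    choose P hP hP' using ih
    refine ⟨fun v => ∃ u : Fin l → N, (∀ i, P i (Sum.elim (v ∘ Sum.inl) (fun _ => u i))) ∧
      ∃ a : Fin l → M, u = E ∘ a ∧ v (Sum.inr 0) = E (Language.Structure.funMap f a), ?_, ?_⟩
    · refine Def.exs (Def.and (Def.all_finite fun i => ?_) ?_)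
      · have h1 := (hP i).comap (β := (γ ⊕ Fin 1) ⊕ Fin l)
          (Sum.elim (fun g => Sum.inl (Sum.inl g)) (fun _ => Sum.inr i))
        convert h1 using 3
        funext x
        rcases x with x | x <;> rfl
      · have h1 := (h.fn l f).comap (β := (γ ⊕ Fin 1) ⊕ Fin l)
          (Sum.elim (fun g => Sum.inr g) (fun _ => Sum.inl (Sum.inr 0)))
        exact h1
    · intro a y
      constructor
      · rintro ⟨u, hu, b, rfl, hy⟩
        have h1 : ∀ i, b i = (ts i).realize a := fun i =>
          h.inj ((hP' i a (fun _ => E (b i))).1 (hu i))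
        have h2 : b = fun i => (ts i).realize a := funext h1
        rw [h2] at hy
        exact hy
      · intro hy
        refine ⟨fun i => E ((ts i).realize a), fun i => (hP' i a _).2 rfl,
          fun i => (ts i).realize a, rfl, hy⟩

theorem Interp.formula (h : Interp L L' E) {γ : Type*} {n : ℕ} (φ : L.BoundedFormula γ n) :
    ∃ P : (γ ⊕ Fin n → N) → Prop, Def L' P ∧ ∀ (a : γ → M) (b : Fin n → M),
      P (Sum.elim (E ∘ a) (E ∘ b)) ↔ φ.Realize a b := by
  induction φ with
  | falsum => exact ⟨fun _ => False, Def.false, fun a b => Iff.rfl⟩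
  | @equal n t₁ t₂ =>
    obtain ⟨P₁, h₁, h₁'⟩ := h.term t₁
    obtain ⟨P₂, h₂, h₂'⟩ := h.term t₂
    refine ⟨fun v => ∃ u : Fin 1 → N, P₁ (Sum.elim v u) ∧ P₂ (Sum.elim v u), ?_, ?_⟩
    · refine Def.exs (Def.and ?_ ?_)
      · simpa only [Sum.elim_comp_inl_inr] using h₁
      · simpa only [Sum.elim_comp_inl_inr] using h₂
    · intro a b
      rw [← Sum.comp_elim]
      constructor
      · rintro ⟨u, hu₁, hu₂⟩
        exact h.inj (((h₁' _ u).1 hu₁).symm.trans ((h₂' _ u).1 hu₂))
      · intro he
        refine ⟨fun _ => E (t₁.realize (Sum.elim a b)), (h₁' _ _).2 rfl, (h₂' _ _).2 ?_⟩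
        exact congrArg E he
  | @rel n l R ts =>
    have h0 := fun i => h.term (ts i)
    choose P hP hP' using h0
    refine ⟨fun v => ∃ u : Fin l → N, (∀ i, P i (Sum.elim v (fun _ => u i))) ∧
      ∃ a : Fin l → M, u = E ∘ a ∧ Language.Structure.RelMap R a, ?_, ?_⟩
    · refine Def.exs (Def.and (Def.all_finite fun i => ?_) ?_)
      · have h1 := (hP i).comap (β := (γ ⊕ Fin n) ⊕ Fin l)
          (Sum.elim (fun g => Sum.inl g) (fun _ => Sum.inr i))
        convert h1 using 3
        funext x
        rcases x with x | x <;> rfl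
      · exact (h.rel l R).comap (β := (γ ⊕ Fin n) ⊕ Fin l) Sum.inr
    · intro a b
      rw [← Sum.comp_elim]
      constructor
      · rintro ⟨u, hu, c, rfl, hc⟩
        have h1 : ∀ i, c i = (ts i).realize (Sum.elim a b) := fun i =>
          h.inj ((hP' i _ (fun _ => E (c i))).1 (hu i))
        have h2 : c = fun i => (ts i).realize (Sum.elim a b) := funext h1
        rw [h2] at hc
        exact hc
      · intro hc
        exact ⟨fun i => E ((ts i).realize (Sum.elim a b)), fun i => (hP' i _ _).2 rfl,
          fun i => (ts i).realize (Sum.elim a b), rfl, hc⟩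
  | @imp n φ₁ φ₂ ih₁ ih₂ =>
    obtain ⟨P₁, h₁, h₁'⟩ := ih₁
    obtain ⟨P₂, h₂, h₂'⟩ := ih₂
    refine ⟨fun v => P₁ v → P₂ v, h₁.imp h₂, fun a b => ?_⟩
    change (P₁ _ → P₂ _) ↔ _
    rw [h₁', h₂']
    rfl
  | @all n φ ih =>
    obtain ⟨P, hP, hP'⟩ := ih
    refine ⟨fun v => ∀ x : N, x ∈ Set.range E →
      P (Sum.elim (v ∘ Sum.inl) (Fin.snoc (v ∘ Sum.inr) x)), ?_, ?_⟩
    · refine Def.all (Def.imp ?_ ?_)
      · exact h.ran.comap (β := (γ ⊕ Fin n) ⊕ Fin 1) Sum.inr
      · have h1 := hP.comap (β := (γ ⊕ Fin n) ⊕ Fin 1)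
          (Sum.elim (fun g => Sum.inl (Sum.inl g))
            (Fin.snoc (α := fun _ => (γ ⊕ Fin n) ⊕ Fin 1) (fun i => Sum.inl (Sum.inr i))
              (Sum.inr 0)))
        convert h1 using 3
        funext x
        rcases x with x | x
        · rfl
        · refine Fin.lastCases ?_ (fun i => ?_) x
          · simp
          · simp
    · intro a b
      have h1 : ∀ x : M, Sum.elim ((Sum.elim (E ∘ a) (E ∘ b)) ∘ Sum.inl)
          (Fin.snoc ((Sum.elim (E ∘ a) (E ∘ b)) ∘ Sum.inr) (E x)) =
          Sum.elim (E ∘ a) (E ∘ (Fin.snoc b x : Fin (n + 1) → M)) := by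
        intro x
        rw [Sum.elim_comp_inl, Sum.elim_comp_inr]
        congr 1
        rw [Fin.comp_snoc]
      constructor
      · intro hx x
        have h2 := hx (E x) ⟨x, rfl⟩
        rw [h1] at h2
        exact (hP' _ _).1 h2
      · rintro hx _ ⟨x, rfl⟩
        rw [h1]
        exact (hP' _ _).2 (hx x)

/-- The interpretation lemma. -/
theorem Interp.definable (h : Interp L L' E) {k : ℕ} {A : Set (Fin k → M)}
    (hA : (Set.univ : Set M).Definable L A) :
    Def L' fun v : Fin k → N => ∃ a ∈ A, ∀ j, v j = E (a j) := by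
  obtain ⟨φ, hφ⟩ := Set.definable_iff_exists_formula_sum.1 hA
  obtain ⟨P, hP, hP'⟩ := h.formula φ
  have h1 := hP.comap (β := ((Set.univ : Set M) ⊕ Fin k))
    (Sum.elim id (fun i : Fin 0 => i.elim0))
  have h2 := h1.fix (fun m => E m.1)
  have h3 : Def L' fun v : Fin k → N => ∀ j, v j ∈ Set.range E :=
    Def.all_finite fun j => h.ran.comap fun _ => j
  have h4 := h2.and h3
  convert h4 using 2
  rename_i v
  have h5 : ∀ a : Fin k → M, P (Sum.elim (fun m : (Set.univ : Set M) => E m.1) (E ∘ a) ∘
      Sum.elim id (fun i : Fin 0 => i.elim0)) ↔ a ∈ A := by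
    intro a
    have h6 := hP' (Sum.elim (fun m : (Set.univ : Set M) => m.1) a) default
    rw [Sum.comp_elim] at h6
    have h7 : (Sum.elim (fun m : (Set.univ : Set M) => E m.1) (E ∘ a) ∘
        Sum.elim id (fun i : Fin 0 => i.elim0)) =
        Sum.elim (Sum.elim (E ∘ fun m : (Set.univ : Set M) => m.1) (E ∘ a))
          (E ∘ (default : Fin 0 → M)) := by
      funext x
      rcases x with x | x
      · rfl
      · exact x.elim0
    rw [h7, h6, hφ]
    rfl
  constructor
  · rintro ⟨a, ha, hv⟩
    have hv' : v = E ∘ a := funext hv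
    subst hv'
    exact ⟨(h5 a).2 ha, fun j => ⟨a j, rfl⟩⟩
  · rintro ⟨hv, hr⟩
    choose a ha using hr
    have hv' : v = E ∘ a := funext fun j => (ha j).symm
    subst hv'
    exact ⟨a, (h5 a).1 hv, fun j => rfl⟩

end interp

end Pool.Agent.H49.AF
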