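import Pool.Agent.H49.AF.Interp
import Pool.Agent.H49.AF.Div
import Pool.Agent.H16.InnLogic

/-!
# Multiplication from addition and divisibility, in the automorphism group of a free group
-/

set_option autoImplicit false

open FirstOrder Set

namespace Pool.Agent.H49.AF

open Pool.Agent.H16.Inn

universe u

/-! ### Numbers -/

/-- `n ^ 2 + n` in terms of divisibility. -/
theorem sq_iff (n m : ℤ) : (n ∣ m ∧ (n + 1) ∣ m ∧ (∀ x, n ∣ x → (n + 1) ∣ x → m ∣ x) ∧
    (n + -1) ∣ (m + -2) ∧ (n + 2) ∣ (m + -2) ∧ (n + -2) ∣ (m + -6) ∧ (n + 3) ∣ (m + -6)) ↔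
    m = n * n + n := by
  have hco : IsCoprime n (n + 1) := ⟨-1, 1, by ring⟩
  constructor
  · rintro ⟨h1, h2, h3, h4, h5, h6, h7⟩
    have h8 : n * (n + 1) ∣ m := hco.mul_dvd h1 h2
    have h9 : m ∣ n * (n + 1) := h3 _ (dvd_mul_right _ _) (dvd_mul_left _ _)
    have h10 : m = n * (n + 1) ∨ m = -(n * (n + 1)) :=
      Int.natAbs_eq_natAbs_iff.1 (Nat.dvd_antisymm (Int.natAbs_dvd_natAbs.2 h9)
        (Int.natAbs_dvd_natAbs.2 h8))
    rcases h10 with h10 | h10
    · rw [h10]; ring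
    · have h11 : (n + -1) ∣ 4 := by
        have h12 : (n + -1) ∣ -((m + -2) + (n + -1) * (n + 2)) :=
          (dvd_neg).2 (dvd_add h4 (dvd_mul_right _ _))
        have h13 : -((m + -2) + (n + -1) * (n + 2)) = 4 := by rw [h10]; ring
        rwa [h13] at h12
      have h14 : (n + 2) ∣ 4 := by
        have h12 : (n + 2) ∣ -((m + -2) + (n + -1) * (n + 2)) :=
          (dvd_neg).2 (dvd_add h5 (dvd_mul_left _ _))
        have h13 : -((m + -2) + (n + -1) * (n + 2)) = 4 := by rw [h10]; ring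
        rwa [h13] at h12
      have h15 := Int.le_of_dvd (by norm_num) h11
      have h16 := Int.le_of_dvd (by norm_num) h14
      have h17 : -(n + 2) ≤ 4 := Int.le_of_dvd (by norm_num) ((neg_dvd).2 h14)
      have h18 : n ≤ 2 := by linarith
      have h19 : -6 ≤ n := by linarith
      subst h10
      interval_cases n <;> revert h4 h5 h6 h7 <;> decide
  · rintro rfl
    refine ⟨⟨n + 1, by ring⟩, ⟨n, by ring⟩, fun x hx hx' => ?_, ⟨n + 2, by ring⟩,
      ⟨n + -1, by ring⟩, ⟨n + 3, by ring⟩, ⟨n + -2, by ring⟩⟩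
    have h := hco.mul_dvd hx hx'
    have h' : n * (n + 1) = n * n + n := by ring
    rwa [h'] at h

theorem mul_iff (x y z p q r : ℤ) (hp : p = (x + y) * (x + y) + (x + y)) (hq : q = x * x + x)
    (hr : r = y * y + y) : p = q + r + z + z ↔ x * y = z := by
  subst hp hq hr
  constructor
  · intro h
    linarith
  · rintro rfl
    ring

/-! ### Definable predicates in groups -/

section groups

variable {G : Type u} [Group G] {α β : Type*}

/-- Functions given by a term with parameters. -/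
def TF (f : (α → G) → G) : Prop :=
  ∃ t : LGrp[[(Set.univ : Set G)]].Term α, ∀ v, t.realize v = f v

theorem TF.var (i : α) : TF fun v : α → G => v i := ⟨Language.Term.var i, fun _ => rfl⟩

theorem TF.con (g : G) : TF fun _ : α → G => g := ⟨tcon g, fun v => real_con v g⟩

theorem TF.mul {f g : (α → G) → G} (hf : TF f) (hg : TF g) : TF fun v => f v * g v := by
  obtain ⟨s, hs⟩ := hf
  obtain ⟨t, ht⟩ := hg
  exact ⟨tmul s t, fun v => by rw [real_mul, hs, ht]⟩

theorem TF.inv {f : (α → G) → G} (hf : TF f) : TF fun v => (f v)⁻¹ := by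
  obtain ⟨s, hs⟩ := hf
  exact ⟨tinv s, fun v => by rw [real_inv, hs]⟩

theorem TF.prod {k : ℕ} {f : Fin k → (α → G) → G} (hf : ∀ i, TF (f i)) :
    TF fun v => (List.ofFn fun i => f i v).prod := by
  induction k with
  | zero =>
    convert TF.con (α := α) (1 : G) using 2
    simp
  | succ k ih =>
    have h := (hf 0).mul (ih fun i => hf i.succ)
    convert h using 2
    rw [List.ofFn_succ, List.prod_cons]

theorem Def.eqT {f g : (α → G) → G} (hf : TF f) (hg : TF g) : Def LGrp fun v => f v = g v := by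
  obtain ⟨s, hs⟩ := hf
  obtain ⟨t, ht⟩ := hg
  refine ⟨Language.Term.equal s t, ?_⟩
  ext v
  simp only [Set.mem_ofPred_eq, Language.Formula.realize_equal, hs, ht]

theorem Def.const {L : FirstOrder.Language} {N : Type*} [L.Structure N] (p : Prop) :
    Def L fun _ : α → N => p := by
  by_cases h : p
  · have h1 := (Def.false (L' := L) (N := N) (α := α)).not
    simpa [h] using h1
  · simpa [h] using (Def.false (L' := L) (N := N) (α := α))

theorem Def.sub {k : ℕ} {P : (Fin k → G) → Prop} (hP : Def LGrp P) {f : Fin k → (α → G) → G}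
    (hf : ∀ i, TF (f i)) : Def LGrp fun v => P fun i => f i v := by
  obtain ⟨φ, hφ⟩ := hP
  choose t ht using hf
  refine ⟨φ.subst t, ?_⟩
  ext v
  have h : ∀ w, P w ↔ φ.Realize w := fun w => by
    have := congrArg (fun s : Set (Fin k → G) => w ∈ s) hφ
    exact iff_of_eq this
  simp only [Set.mem_ofPred_eq]
  rw [h]
  unfold Language.Formula.Realize
  rw [Language.BoundedFormula.realize_subst]
  apply iff_of_eq
  congr 1
  funext i
  exact (ht i v).symm

theorem Def.sub1 {R : G → Prop} (hR : Def LGrp fun v : Fin 1 → G => R (v 0))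
    {f : (α → G) → G} (hf : TF f) : Def LGrp fun v => R (f v) :=
  Def.sub (f := fun _ => f) hR fun _ => hf

theorem Def.sub2 {R : G → G → Prop} (hR : Def LGrp fun v : Fin 2 → G => R (v 0) (v 1))
    {f g : (α → G) → G} (hf : TF f) (hg : TF g) : Def LGrp fun v => R (f v) (g v) := by
  have h := Def.sub (f := ![f, g]) hR fun i => by
    fin_cases i
    · exact hf
    · exact hg
  exact h

end groups

/-! ### The relations -/

section free

variable {β : Type} [Fintype β] [DecidableEq β] {a b l : β}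

theorem def_range (hβ : ∀ b : β, ∃ c d : β, c ≠ b ∧ d ≠ b ∧ c ≠ d) (hab : a ≠ b) :
    Def LGrp fun v : Fin 1 → MulAut (FreeGroup β) => v 0 ∈ Set.range (EE a) := by
  have h1 := centralizer_SI hβ {a} ⟨b, by simpa using hab.symm⟩
  have h2 := dfn_centralizer (S := ⋃ b ∈ (Finset.univ \ {a} : Finset β), SS b)
    (Set.Finite.biUnion (Finset.finite_toSet _) fun b _ => SS_finite b)
  rw [h1] at h2
  unfold Dfn Set.Definable₁ at h2
  unfold Def
  convert h2 using 1
  ext v
  simp only [Set.mem_ofPred_eq, Set.mem_range, SetLike.mem_coe, Subgroup.mem_map]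
  constructor
  · rintro ⟨c, hc⟩
    refine ⟨FreeGroup.of a ^ c, ?_, hc⟩
    simp only [Finset.coe_singleton]
    exact (mem_HI_singleton a _).2 ⟨c, rfl⟩
  · rintro ⟨w, hw, hc⟩
    simp only [Finset.coe_singleton] at hw
    obtain ⟨c, rfl⟩ := (mem_HI_singleton a w).1 hw
    exact ⟨c, hc⟩

theorem def_divG (hβ : ∀ b : β, ∃ c d : β, c ≠ b ∧ d ≠ b ∧ c ≠ d) (hab : a ≠ b) :
    Def LGrp fun v : Fin 2 → MulAut (FreeGroup β) => DivG a b l (v 0) (v 1) := by
  have hr := def_range hβ hab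
  unfold DivG
  refine Def.and (Def.and (hr.sub1 (TF.var 0)) (hr.sub1 (TF.var 1))) (Def.exs ?_)
  have t0 : TF fun v : Fin 2 ⊕ Fin 2 → MulAut (FreeGroup β) => v (Sum.inr 0) := TF.var _
  have t1 : TF fun v : Fin 2 ⊕ Fin 2 → MulAut (FreeGroup β) => v (Sum.inr 1) := TF.var _
  have sA : TF fun v : Fin 2 ⊕ Fin 2 → MulAut (FreeGroup β) => v (Sum.inl 0) := TF.var _
  have sB : TF fun v : Fin 2 ⊕ Fin 2 → MulAut (FreeGroup β) => v (Sum.inl 1) := TF.var _
  refine Def.and (Def.all_finite fun i => Def.imp (Def.const _) ?_) (Def.and ?_ (Def.and ?_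
    (Def.and ?_ ?_)))
  · exact Def.eqT (t0.mul (TF.con _)) ((TF.con _).mul t0)
  · exact Def.eqT (t0.mul (TF.con _)) (((TF.con _).mul sA).mul t0)
  · exact Def.eqT (t0.mul (TF.con _)) (((TF.con _).mul (TF.con _)).mul t0)
  · exact Def.eqT (t1.mul (TF.con _)) (((TF.con _).mul sB).mul t1)
  · exact Def.eqT (t1.mul t0) (t0.mul t1)

variable (a b l) in
/-- The graph of `n ^ 2 + n`. -/
def SqG (N M : MulAut (FreeGroup β)) : Prop :=
  DivG a b l N M ∧ DivG a b l (N * EE a 1) M ∧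
    (∀ X, DivG a b l N X → DivG a b l (N * EE a 1) X → DivG a b l M X) ∧
    DivG a b l (N * EE a (-1)) (M * EE a (-2)) ∧ DivG a b l (N * EE a 2) (M * EE a (-2)) ∧
    DivG a b l (N * EE a (-2)) (M * EE a (-6)) ∧ DivG a b l (N * EE a 3) (M * EE a (-6))

theorem sqG_iff (hab : a ≠ b) (hal : a ≠ l) (hbl : b ≠ l) (n m : ℤ) :
    SqG a b l (EE a n) (EE a m) ↔ m = n * n + n := by
  rw [← sq_iff]
  unfold SqG
  simp only [← EE_add, divG_iff hab hal hbl]
  have h : (∀ X, DivG a b l (EE a n) X → DivG a b l (EE a (n + 1)) X → DivG a b l (EE a m) X) ↔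
      ∀ x, n ∣ x → (n + 1) ∣ x → m ∣ x := by
    constructor
    · intro h x h1 h2
      have h3 := h (EE a x)
      simp only [divG_iff hab hal hbl] at h3
      exact h3 h1 h2
    · intro h X h1 h2
      obtain ⟨x, rfl⟩ := h1.1.2
      rw [divG_iff hab hal hbl] at h1 h2 ⊢
      exact h x h1 h2
  rw [h]

theorem def_sqG (hβ : ∀ b : β, ∃ c d : β, c ≠ b ∧ d ≠ b ∧ c ≠ d) (hab : a ≠ b) :
    Def LGrp fun v : Fin 2 → MulAut (FreeGroup β) => SqG a b l (v 0) (v 1) := by
  have hd := def_divG (l := l) hβ hab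
  unfold SqG
  have t0 : TF fun v : Fin 2 → MulAut (FreeGroup β) => v 0 := TF.var _
  have t1 : TF fun v : Fin 2 → MulAut (FreeGroup β) => v 1 := TF.var _
  refine Def.and hd (Def.and (hd.sub2 (t0.mul (TF.con _)) t1) (Def.and (Def.all ?_)
    (Def.and (hd.sub2 (t0.mul (TF.con _)) (t1.mul (TF.con _)))
    (Def.and (hd.sub2 (t0.mul (TF.con _)) (t1.mul (TF.con _)))
    (Def.and (hd.sub2 (t0.mul (TF.con _)) (t1.mul (TF.con _)))
    (hd.sub2 (t0.mul (TF.con _)) (t1.mul (TF.con _))))))))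
  have s0 : TF fun v : Fin 2 ⊕ Fin 1 → MulAut (FreeGroup β) => v (Sum.inl 0) := TF.var _
  have s1 : TF fun v : Fin 2 ⊕ Fin 1 → MulAut (FreeGroup β) => v (Sum.inl 1) := TF.var _
  have sX : TF fun v : Fin 2 ⊕ Fin 1 → MulAut (FreeGroup β) => v (Sum.inr 0) := TF.var _
  exact Def.imp (hd.sub2 s0 sX) (Def.imp (hd.sub2 (s0.mul (TF.con _)) sX) (hd.sub2 s1 sX))

variable (a b l) in
/-- The graph of the multiplication. -/
def MulG (A B C : MulAut (FreeGroup β)) : Prop :=
  C ∈ Set.range (EE a) ∧ ∃ u : Fin 3 → MulAut (FreeGroup β),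
    SqG a b l (A * B) (u 0) ∧ SqG a b l A (u 1) ∧ SqG a b l B (u 2) ∧ u 0 = u 1 * u 2 * C * C

theorem mulG_iff (hab : a ≠ b) (hal : a ≠ l) (hbl : b ≠ l) (A B C : MulAut (FreeGroup β)) :
    MulG a b l A B C ↔ ∃ x y z : ℤ, A = EE a x ∧ B = EE a y ∧ C = EE a z ∧ x * y = z := by
  constructor
  · rintro ⟨⟨z, rfl⟩, u, h0, h1, h2, h3⟩
    obtain ⟨x, rfl⟩ := h1.1.1.1
    obtain ⟨y, rfl⟩ := h2.1.1.1
    obtain ⟨p, hp⟩ := h0.1.1.2
    obtain ⟨q, hq⟩ := h1.1.1.2
    obtain ⟨r, hr⟩ := h2.1.1.2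
    rw [← hp, ← EE_add, sqG_iff hab hal hbl] at h0
    rw [← hq, sqG_iff hab hal hbl] at h1
    rw [← hr, sqG_iff hab hal hbl] at h2
    rw [← hp, ← hq, ← hr, ← EE_add, ← EE_add, ← EE_add] at h3
    exact ⟨x, y, z, rfl, rfl, rfl, (mul_iff x y z p q r h0 h1 h2).1 (EE_injective hab h3)⟩
  · rintro ⟨x, y, z, rfl, rfl, rfl, h⟩
    refine ⟨⟨z, rfl⟩, ![EE a ((x + y) * (x + y) + (x + y)), EE a (x * x + x),
      EE a (y * y + y)], ?_, ?_, ?_, ?_⟩
    · rw [← EE_add]
      exact (sqG_iff hab hal hbl _ _).2 rfl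
    · exact (sqG_iff hab hal hbl _ _).2 rfl
    · exact (sqG_iff hab hal hbl _ _).2 rfl
    · change EE a ((x + y) * (x + y) + (x + y)) = EE a (x * x + x) * EE a (y * y + y) *
        EE a z * EE a z
      rw [← EE_add, ← EE_add, ← EE_add, (mul_iff x y z _ _ _ rfl rfl rfl).2 h]

theorem def_mulG (hβ : ∀ b : β, ∃ c d : β, c ≠ b ∧ d ≠ b ∧ c ≠ d) (hab : a ≠ b)
    {α : Type*} {f g k : (α → MulAut (FreeGroup β)) → MulAut (FreeGroup β)} (hf : TF f)
    (hg : TF g) (hk : TF k) : Def LGrp fun v => MulG a b l (f v) (g v) (k v) := by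
  have hd := def_sqG (l := l) hβ hab
  have h : Def LGrp fun v : Fin 3 → MulAut (FreeGroup β) => MulG a b l (v 0) (v 1) (v 2) := by
    unfold MulG
    refine Def.and ((def_range hβ hab).sub1 (TF.var 2)) (Def.exs ?_)
    have s0 : TF fun v : Fin 3 ⊕ Fin 3 → MulAut (FreeGroup β) => v (Sum.inl 0) := TF.var _
    have s1 : TF fun v : Fin 3 ⊕ Fin 3 → MulAut (FreeGroup β) => v (Sum.inl 1) := TF.var _
    have s2 : TF fun v : Fin 3 ⊕ Fin 3 → MulAut (FreeGroup β) => v (Sum.inl 2) := TF.var _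
    have t0 : TF fun v : Fin 3 ⊕ Fin 3 → MulAut (FreeGroup β) => v (Sum.inr 0) := TF.var _
    have t1 : TF fun v : Fin 3 ⊕ Fin 3 → MulAut (FreeGroup β) => v (Sum.inr 1) := TF.var _
    have t2 : TF fun v : Fin 3 ⊕ Fin 3 → MulAut (FreeGroup β) => v (Sum.inr 2) := TF.var _
    exact Def.and (hd.sub2 (s0.mul s1) t0) (Def.and (hd.sub2 s0 t1) (Def.and (hd.sub2 s1 t2)
      (Def.eqT t0 (((t1.mul t2).mul s2).mul s2))))
  have h1 := Def.sub (f := ![f, g, k]) h fun i => by
    fin_cases i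
    · exact hf
    · exact hg
    · exact hk
  exact h1

end free

end Pool.Agent.H49.AF
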